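import Mathlib
import Pool.Agent.X279.JacUnit

/-!
# The Jacobson radical of a `π`-UU ring is nil

For `j` in the Jacobson radical, `1 + j g(j)` is a unit for every integer polynomial `g`.  Modulo a
minimal prime over the kernel of `ℤ[X] → R`, `X ↦ j`, the image `θ` of `X` satisfies: `1 + θ` and
`1 - θ` are roots of unity.  In characteristic zero this forces `θ = 0`; in positive characteristic
`θ` is zero or a root of unity.  Hence `j (1 - j ^ m)` is nilpotent for some `m`.
-/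

set_option autoImplicit false

namespace Pool.Agent.Results.MP_c8c065_al.JacobsonNil

open Polynomial

/-- `π`-UU rings: some positive power of every unit lies in `1 + Nil(R)`. -/
def PiUU (R : Type*) [Ring R] : Prop :=
  ∀ u : Rˣ, ∃ i : ℕ, 1 ≤ i ∧ IsNilpotent ((u : R) ^ i - 1)

theorem char_zero_case {F : Type*} [Field F] [CharZero F] (θ : F) {a b : ℕ} (ha : 1 ≤ a)
    (hb : 1 ≤ b) (h1 : (1 + θ) ^ a = 1) (h2 : (1 - θ) ^ b = 1) : θ = 0 := by
  classical
  -- `θ` is algebraic over `ℚ`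
  have hint : IsAlgebraic ℚ θ := by
    have h3 : IsIntegral ℚ (1 + θ) := by
      refine ⟨X ^ a - 1, monic_X_pow_sub_C 1 (by omega), ?_⟩
      simp [h1]
    have h4 : IsIntegral ℚ θ := by
      have := h3.sub (isIntegral_one (R := ℚ) (B := F))
      simpa using this
    exact h4.isAlgebraic
  let L := algebraicClosure ℚ F
  have halg : Algebra.IsAlgebraic ℚ L := algebraicClosure.isAlgebraic ℚ F
  let θ' : L := ⟨θ, (mem_algebraicClosure_iff (F := ℚ) (E := F)).2 hint⟩
  let f : L →ₐ[ℚ] ℂ := IsAlgClosed.lift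
  have h1' : (1 + θ') ^ a = 1 := by
    apply Subtype.ext
    simpa using h1
  have h2' : (1 - θ') ^ b = 1 := by
    apply Subtype.ext
    simpa using h2
  set z : ℂ := f θ' with hz
  have e1 : (1 + z) ^ a = 1 := by
    rw [hz, ← map_one f, ← map_add, ← map_pow, h1']
  have e2 : (1 - z) ^ b = 1 := by
    rw [hz, ← map_one f, ← map_sub, ← map_pow, h2']
  have n1 : ‖1 + z‖ = 1 := Complex.norm_eq_one_of_pow_eq_one e1 (by omega)
  have n2 : ‖1 - z‖ = 1 := Complex.norm_eq_one_of_pow_eq_one e2 (by omega)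
  have hz0 : z = 0 := by
    have p := parallelogram_law_with_norm ℝ (1 : ℂ) z
    rw [n1, n2] at p
    have : ‖z‖ * ‖z‖ = 0 := by
      have h : ‖(1 : ℂ)‖ = 1 := norm_one
      rw [h] at p
      linarith
    exact norm_eq_zero.1 (mul_self_eq_zero.1 this)
  have : θ' = 0 := by
    apply f.injective
    rw [map_zero]
    exact hz0
  exact congrArg Subtype.val this

theorem char_p_case {F : Type*} [Field F] (p : ℕ) [hp : Fact p.Prime] [CharP F p] (θ : F) {a : ℕ}
    (ha : 1 ≤ a) (h1 : (1 + θ) ^ a = 1) : θ = 0 ∨ ∃ m : ℕ, 1 ≤ m ∧ θ ^ m = 1 := by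
  classical
  by_cases h0 : θ = 0
  · exact Or.inl h0
  right
  let _ := ZMod.algebra F p
  have h3 : IsIntegral (ZMod p) (1 + θ) := by
    refine ⟨X ^ a - 1, monic_X_pow_sub_C 1 (by omega), ?_⟩
    simp [h1]
  have h4 : IsIntegral (ZMod p) θ := by
    have := h3.sub (isIntegral_one (R := ZMod p) (B := F))
    simpa using this
  have : FiniteDimensional (ZMod p) (IntermediateField.adjoin (ZMod p) {θ}) :=
    IntermediateField.adjoin.finiteDimensional h4
  have : Finite (IntermediateField.adjoin (ZMod p) {θ}) :=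
    Module.finite_of_finite (ZMod p)
  let θ' : IntermediateField.adjoin (ZMod p) {θ} :=
    ⟨θ, IntermediateField.mem_adjoin_simple_self (ZMod p) θ⟩
  have h0' : θ' ≠ 0 := fun h => h0 (congrArg Subtype.val h)
  have hfin : IsOfFinOrder (Units.mk0 θ' h0') := isOfFinOrder_of_finite _
  obtain ⟨m, hm, hm'⟩ := isOfFinOrder_iff_pow_eq_one.1 hfin
  refine ⟨m, hm, ?_⟩
  have h5 := congrArg (fun u : (IntermediateField.adjoin (ZMod p) {θ})ˣ =>
    ((u : IntermediateField.adjoin (ZMod p) {θ}) : F)) hm'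
  simpa using h5

theorem domain_case {D : Type*} [CommRing D] [IsDomain D] (θ : D) {a b : ℕ} (ha : 1 ≤ a)
    (hb : 1 ≤ b) (h1 : (1 + θ) ^ a = 1) (h2 : (1 - θ) ^ b = 1) :
    θ = 0 ∨ ∃ m : ℕ, 1 ≤ m ∧ θ ^ m = 1 := by
  let F := FractionRing D
  have hinj : Function.Injective (algebraMap D F) := IsFractionRing.injective D F
  set t : F := algebraMap D F θ with ht
  have h1' : (1 + t) ^ a = 1 := by
    rw [ht, ← map_one (algebraMap D F), ← map_add, ← map_pow, h1]
  have h2' : (1 - t) ^ b = 1 := by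
    rw [ht, ← map_one (algebraMap D F), ← map_sub, ← map_pow, h2]
  rcases CharP.exists' F with hF | ⟨p, hp, hF⟩
  · left
    have := char_zero_case t ha hb h1' h2'
    apply hinj
    rw [map_zero, ← ht, this]
  · have := hp
    have := hF
    rcases char_p_case p t ha h1' with h | ⟨m, hm, h⟩
    · left
      apply hinj
      rw [map_zero, ← ht, h]
    · right
      refine ⟨m, hm, hinj ?_⟩
      rw [map_pow, map_one, ← ht, h]

/-- **The Jacobson radical of a `π`-UU ring is nil.** -/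
theorem result {R : Type*} [Ring R] (hR : PiUU R) (j : R) (hj : j ∈ Ring.jacobson R) :
    IsNilpotent j := by
  classical
  set ψ : ℤ[X] →+* R := (aeval (R := ℤ) j).toRingHom with hψ
  have hψX : ψ X = j := by simp [hψ]
  set I : Ideal ℤ[X] := RingHom.ker ψ with hI
  have key : ∀ P ∈ I.minimalPrimes, ∃ m : ℕ, 1 ≤ m ∧ (X * (1 - X ^ m) : ℤ[X]) ∈ P := by
    intro P hP
    have : P.IsPrime := hP.1.1
    have hIP : I ≤ P := hP.1.2
    have hu : ∀ y : R, y ∈ Ring.jacobson R → ∀ f : ℤ[X], ψ f = 1 + y →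
        ∃ a : ℕ, 1 ≤ a ∧ (Ideal.Quotient.mk P f) ^ a = 1 := by
      intro y hy f hf
      obtain ⟨u, hu⟩ := Pool.Agent.X279.isUnit_one_add_of_mem_jacobson hy
      obtain ⟨a, ha, k, hk⟩ := hR u
      refine ⟨a, ha, ?_⟩
      have h1 : (f ^ a - 1) ^ k ∈ P := by
        apply hIP
        rw [hI, RingHom.mem_ker, map_pow, map_sub, map_pow, map_one, hf, ← hu]
        exact hk
      have h2 : f ^ a - 1 ∈ P := Ideal.IsPrime.mem_of_pow_mem inferInstance k h1
      rw [← map_pow, ← map_one (Ideal.Quotient.mk P)]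
      exact Ideal.Quotient.eq.2 h2
    obtain ⟨a, ha, h1⟩ := hu j hj (1 + X) (by rw [map_add, map_one, hψX])
    obtain ⟨b, hb, h2⟩ := hu (-j) (neg_mem hj) (1 - X) (by
      rw [map_sub, map_one, hψX, sub_eq_add_neg])
    rw [map_add, map_one] at h1
    rw [map_sub, map_one] at h2
    rcases domain_case (Ideal.Quotient.mk P X) ha hb h1 h2 with h | ⟨m, hm, h⟩
    · refine ⟨1, le_rfl, ?_⟩
      exact Ideal.mul_mem_right _ _ (Ideal.Quotient.eq_zero_iff_mem.1 h)
    · refine ⟨m, hm, Ideal.mul_mem_left _ _ ?_⟩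
      rw [← Ideal.Quotient.eq_zero_iff_mem, map_sub, map_pow, h, map_one, sub_self]
  choose! μ hμ1 hμ2 using key
  have hfin : I.minimalPrimes.Finite := Ideal.finite_minimalPrimes_of_isNoetherianRing _ I
  set M : ℕ := ∏ P ∈ hfin.toFinset, μ P with hM
  have hM1 : 1 ≤ M := Finset.one_le_prod' fun P hP => hμ1 P (hfin.mem_toFinset.1 hP)
  have hrad : (X * (1 - X ^ M) : ℤ[X]) ∈ I.radical := by
    rw [← Ideal.sInf_minimalPrimes, Ideal.mem_sInf]
    intro P hP
    obtain ⟨c, hc⟩ : μ P ∣ M := Finset.dvd_prod_of_mem _ (hfin.mem_toFinset.2 hP)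
    have hdvd : (1 - X ^ μ P : ℤ[X]) ∣ 1 - X ^ M := by
      rw [hc, pow_mul]
      have := sub_dvd_pow_sub_pow (1 : ℤ[X]) (X ^ μ P) c
      rwa [one_pow] at this
    obtain ⟨q, hq⟩ := hdvd
    rw [hq, ← mul_assoc]
    exact Ideal.mul_mem_right _ _ (hμ2 P hP)
  obtain ⟨k, hk⟩ := hrad
  rw [hI, RingHom.mem_ker, mul_pow, map_mul, map_pow, map_pow, map_sub, map_one, map_pow, hψX] at hk
  have hjM : -(j ^ M) ∈ Ring.jacobson R := by
    refine neg_mem ?_
    obtain ⟨c, hc⟩ : ∃ c, M = c + 1 := ⟨M - 1, by omega⟩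
    rw [hc, pow_succ]
    exact Ideal.mul_mem_left _ _ hj
  have hunit : IsUnit ((1 - j ^ M) ^ k) := by
    have := Pool.Agent.X279.isUnit_one_add_of_mem_jacobson hjM
    rw [← sub_eq_add_neg] at this
    exact this.pow k
  exact ⟨k, (hunit.mul_left_eq_zero).1 hk⟩

end Pool.Agent.Results.MP_c8c065_al.JacobsonNil
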